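import Pool.Agent.V11202.PW.Fin

set_option autoImplicit false

open scoped ContDiff
open Pool.Agent.V11202.CK Pool.Agent.V11202.PW

namespace Pool.Agent.Results.MP_d87c46_gt.PPWave

theorem ae_dim : ∃ S : Submodule ℝ (Eu 4 → ℝ),
    (∀ σ, σ ∈ S ↔ IsAE gw σ) ∧ Module.finrank ℝ S = 2 := by
  let b : Fin 2 → (Eu 4 → ℝ) := ![fun _ => 1, fun x => x 0]
  have hb : LinearIndependent ℝ b := by
    rw [LinearIndependent.pair_iff]
    intro s t h
    have h0 := congrFun h 0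
    have h1 := congrFun h (fun _ => 1)
    simp at h0 h1
    exact ⟨h0, by rw [h0] at h1; simpa using h1⟩
  refine ⟨Submodule.span ℝ (Set.range b), fun σ => ?_, ?_⟩
  · rw [ae_iff]
    have hr : Set.range b = {fun _ => 1, fun x => x 0} := by
      simp [b, Matrix.range_cons, Set.pair_comm]
    rw [hr, Submodule.mem_span_pair]
    constructor
    · rintro ⟨a, c, h⟩
      exact ⟨a, c, fun x => by rw [← h]; simp⟩
    · rintro ⟨a, c, h⟩
      exact ⟨a, c, by funext x; rw [h x]; simp⟩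
  · rw [finrank_span_eq_card hb]
    simp

/-- The Ricci-flat metric `gw = 2 du dv + (x³ - 3xy²) du² + dx² + dy²` on `ℝ⁴` is Lorentzian, its
Weyl tensor is not zero at `(0,0,1,0)`, its almost Einstein scales are exactly the functions
`a + b u` and form a two-dimensional space, and no non-empty open set of it admits a smooth map `F`
to `ℝ⁴` with `F^* g_pp = φ² g`, `φ > 0` smooth. -/
theorem result :
    IsLorentz4 gw ∧ (∀ i j x, Rc gw i j x = 0) ∧ Wl gw 2 0 2 0 ![0, 0, 1, 0] ≠ 0 ∧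
      (∀ σ, IsAE gw σ ↔ ∃ a b : ℝ, ∀ x, σ x = a + b * x 0) ∧
      (∃ S : Submodule ℝ (Eu 4 → ℝ), (∀ σ, σ ∈ S ↔ IsAE gw σ) ∧ Module.finrank ℝ S = 2) ∧
      ∀ (U : Set (Eu 4)), IsOpen U → U.Nonempty → ∀ (F : Eu 4 → Eu 4) (φ : Eu 4 → ℝ),
        ¬ ConfMap4 U gw gpp F φ :=
  ⟨gw_lorentz, Rc_gw, Wl_gw, ae_iff, ae_dim, fun _ hU ⟨_, hp⟩ _ _ hc => no_conf4 hU hp hc⟩

end Pool.Agent.Results.MP_d87c46_gt.PPWave
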